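import Pool.Agent.Helper49.SE.El0
import Pool.Agent.Helper59.SE.FO

/-!
# Package FINITE: finitely many local data of one degree
-/

set_option autoImplicit false
set_option linter.unusedSectionVars false

namespace Pool.Agent.Helper69.SE

open MvPolynomial Pool.Agent.W559.Mg Pool.Agent.W559.Et Pool.Agent.Helper49.SQ
  Pool.Agent.Helper49.SE

section

variable {k K : Type} [Field k] [Field K] [Algebra k K] {N : ℕ} {G : Type} [Group G]

/-- Raising the degree of local data. -/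
lemma raise (hMul : FoMulStm) (ρ : G →* (K ≃ₐ[k] K)) (A : Subalgebra k K)
    (z : Fin (N + 1) → K) (j : Fin (N + 1)) (D : ℕ) (J : G → Prop) (f : K)
    (hf : f ∈ Ch A z j) (h : Dat ρ A z j D (fun _ => True) J f hf) (e : ℕ) (he : 0 < e) :
    ∃ S : Finset K, (∀ x ∈ S, x ∈ Fo A z (D * e)) ∧
      Dat ρ A z j (D * e) (fun x => x ∈ S) J f hf := by
  classical
  obtain ⟨s, n, y, het, hs0, hs, hsy, hz, -, -, hJ⟩ := h
  obtain ⟨hm, h0, h1⟩ := hMul k K N A z
  have hpow : ∀ m : ℕ, s ^ m ∈ Fo A z (D * m) := by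
    intro m
    induction m with
    | zero => simpa using h0 1 A.one_mem
    | succ m ih =>
      rw [pow_succ, Nat.mul_succ]
      exact hm _ _ _ _ ih hs
  obtain ⟨e', rfl⟩ : ∃ e', e = e' + 1 := ⟨e - 1, by omega⟩
  have hsy' : ∀ i, s ^ (e' + 1) * (y i : K) ∈ Fo A z (D * (e' + 1)) := by
    intro i
    have h2 : s ^ (e' + 1) * (y i : K) = s ^ e' * (s * (y i : K)) := by ring
    rw [h2, Nat.mul_succ]
    exact hm _ _ _ _ (hpow e') (hsy i)
  refine ⟨insert (s ^ (e' + 1)) (Finset.univ.image fun i => s ^ (e' + 1) * (y i : K)), ?_, ?_⟩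
  · intro x hx
    rcases Finset.mem_insert.1 hx with rfl | hx
    · exact hpow _
    · obtain ⟨i, -, rfl⟩ := Finset.mem_image.1 hx
      exact hsy' i
  · refine ⟨s ^ (e' + 1), n, y, het, pow_ne_zero _ hs0, hpow _, hsy', ?_, ?_, ?_, ?_⟩
    · rw [pow_mul, ← div_pow]
      exact Subalgebra.pow_mem _ hz _
    · exact Finset.mem_insert_self _ _
    · intro i
      exact Finset.mem_insert_of_mem (Finset.mem_image.2 ⟨i, Finset.mem_univ _, rfl⟩)
    · intro g hg
      refine ⟨?_, (hJ g hg).2⟩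
      rw [map_pow, (hJ g hg).1]

/-- Local data are monotone. -/
lemma dat_mono (ρ : G →* (K ≃ₐ[k] K)) (A : Subalgebra k K)
    (z : Fin (N + 1) → K) (j : Fin (N + 1)) (D : ℕ) (P P' : K → Prop) (J J' : G → Prop) (f : K)
    (hf : f ∈ Ch A z j) (hP : ∀ x, P x → P' x) (hJ : ∀ g, J' g → J g)
    (h : Dat ρ A z j D P J f hf) : Dat ρ A z j D P' J' f hf := by
  obtain ⟨s, n, y, het, hs0, hs, hsy, hz, h1, h2, h3⟩ := h
  exact ⟨s, n, y, het, hs0, hs, hsy, hz, hP _ h1, fun i => hP _ (h2 i), fun g hg => h3 g (hJ g hg)⟩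

end

theorem finite_ (hLoc : LocalStm) (hMul : FoMulStm) : FiniteStm := by
  classical
  intro k K _ _ _ N A z G _ _ ρ hA hS hL
  -- the property of `f`
  let Q : ∀ j : Fin (N + 1), Ch A z j → ℕ → Prop := fun j f D =>
    0 < D ∧ Dat ρ A z j D (fun _ => True) (fun g => ∃ (q' : Ideal (Ch A z j)) (hq' : q'.IsPrime),
      (⟨f, f.2⟩ : Ch A z j) ∉ q' ∧ InG ρ (locR (Ch A z j) q' hq') g) f f.2
  have hspan : ∀ j : Fin (N + 1), Ideal.span {f : Ch A z j | ∃ D, Q j f D} = ⊤ := by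
    intro j
    by_contra hne
    obtain ⟨m, hm, hle⟩ := Ideal.exists_le_maximal _ hne
    obtain ⟨D, f, hf, hD, hfm, hdat⟩ := hLoc k K N A z G ρ hA hS j m hm.isPrime
      (hL j m hm.isPrime)
    exact hfm (hle (Ideal.subset_span ⟨D, hD, hdat⟩))
  have hfin : ∀ j : Fin (N + 1), ∃ T : Finset (Ch A z j),
      (∀ f ∈ T, ∃ D, Q j f D) ∧ Ideal.span (T : Set (Ch A z j)) = ⊤ := by
    intro j
    obtain ⟨T, hT, hT'⟩ := (Ideal.span_eq_top_iff_finite _).1 (hspan j)
    exact ⟨T, fun f hf => hT hf, hT'⟩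
  choose T hT hTtop using hfin
  have hD : ∀ (j : Fin (N + 1)) (f : Ch A z j), ∃ D, f ∈ T j → Q j f D := by
    intro j f
    by_cases h : f ∈ T j
    · obtain ⟨D, hD⟩ := hT j f h
      exact ⟨D, fun _ => hD⟩
    · exact ⟨0, fun h' => absurd h' h⟩
  choose D hD using hD
  set E : ℕ := ∏ j : Fin (N + 1), ∏ f ∈ T j, D j f with hE
  have hE0 : 0 < E := Finset.prod_pos fun j _ => Finset.prod_pos fun f hf => (hD j f hf).1
  have hdvd : ∀ j, ∀ f ∈ T j, D j f ∣ E := by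
    intro j f hf
    exact (Finset.dvd_prod_of_mem (D j) hf).trans
      (Finset.dvd_prod_of_mem (fun j => ∏ f ∈ T j, D j f) (Finset.mem_univ j))
  have hex : ∀ (j : Fin (N + 1)) (f : Ch A z j), ∃ S : Finset K, f ∈ T j →
      (∀ x ∈ S, x ∈ Fo A z E) ∧ Dat ρ A z j E (fun x => x ∈ S)
        (fun g => ∃ (q' : Ideal (Ch A z j)) (hq' : q'.IsPrime),
          (⟨f, f.2⟩ : Ch A z j) ∉ q' ∧ InG ρ (locR (Ch A z j) q' hq') g) f f.2 := by
    intro j f
    by_cases h : f ∈ T j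
    · obtain ⟨e, he⟩ := hdvd j f h
      have he0 : 0 < e := by
        rcases Nat.eq_zero_or_pos e with h0 | h0
        · rw [h0, mul_zero] at he
          omega
        · exact h0
      obtain ⟨S, h1, h2⟩ := raise hMul ρ A z j (D j f) _ f f.2 (hD j f h).2 e he0
      rw [← he] at h1 h2
      exact ⟨S, fun _ => ⟨h1, h2⟩⟩
    · exact ⟨∅, fun h' => absurd h' h⟩
  choose S hS' using hex
  refine ⟨E, Finset.univ.biUnion fun j => (T j).biUnion fun f => S j f, hE0, ?_, ?_⟩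
  · intro x hx
    obtain ⟨j, -, hx⟩ := Finset.mem_biUnion.1 hx
    obtain ⟨f, hf, hx⟩ := Finset.mem_biUnion.1 hx
    exact (hS' j f hf).1 x hx
  · intro j q hq
    obtain ⟨f, hf, hfq⟩ : ∃ f ∈ T j, f ∉ q := by
      by_contra hcon
      push Not at hcon
      apply hq.ne_top
      rw [eq_top_iff, ← hTtop j]
      exact Ideal.span_le.2 fun f hf => hcon f hf
    refine ⟨f, f.2, hfq, ?_⟩
    refine dat_mono ρ A z j E _ _ _ _ f f.2 ?_ ?_ (hS' j f hf).2
    · intro x hx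
      exact Finset.mem_biUnion.2 ⟨j, Finset.mem_univ _, Finset.mem_biUnion.2 ⟨f, hf, hx⟩⟩
    · intro g hg
      exact ⟨q, hq, hfq, hg⟩

end Pool.Agent.Helper69.SE
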